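import Pool.Agent.H90.STK.Stmts3
import Pool.Agent.H84.STK.TDS
import Pool.Agent.H53.Kak.Dual

/-!
# The rounded slopes of separated directions have large entropy
-/

set_option autoImplicit false

namespace Pool.STK

open Finset Real MeasureTheory
open scoped RealInnerProductSpace
open Pool.Agent.H49.Ent Pool.Agent.H32.Dense
open Pool.Agent.H53.Kak (E tube)
open Pool.Agent.H53.Dns (Mx psl slp)

open TDS in
theorem td2_thm (hUNI : UNIStmt) : TD2Stmt := by
  classical
  intro d c₇ hc₇
  have hm0 := hm_pos d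
  obtain ⟨C, hC⟩ : ∃ C, C = 2 * (((d : ℝ) + 1) * (c₇ / hm d)) := ⟨_, rfl⟩
  have hC0 : 0 ≤ C := by rw [hC]; positivity
  obtain ⟨N0, hN0⟩ : ∃ N0, N0 = Pool.Agent.H53.Kak.CG d * (C + 1) ^ d := ⟨_, rfl⟩
  have hN1 : 1 ≤ N0 := by
    rw [hN0]
    have h1 := Pool.Agent.H53.Kak.one_le_CG d
    have h2 : (1 : ℝ) ≤ (C + 1) ^ d := one_le_pow₀ (by linarith)
    nlinarith
  refine ⟨Real.log N0, Real.log_nonneg hN1, ?_⟩
  intro δ J hδ hδ1 hJ ι _ _ c e k g q hCell hsep
  have hfib : ∀ (i : ι) (s : Finset ι), (∀ j ∈ s, Fl (dT k e) J j = Fl (dT k e) J i) →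
      (s.card : ℝ) ≤ N0 := by
    intro i s hsi
    have hF : Pool.Agent.H53.Kak.Fam δ e s :=
      ⟨fun j _ => hCell.unit j, fun j _ j' _ h => hsep j j' h⟩
    have h1 := Pool.Agent.H53.Kak.card_near' hδ hF (e i) (ρ := C * δ) (by positivity) (by
      intro j hj
      have hji := hsi j hj
      have hs : ∀ l, |slp k (e j) l - slp k (e i) l| ≤ c₇ / hm d * δ := by
        intro l
        have h2 : ⌊2 ^ J * dT k e j l⌋ = ⌊2 ^ J * dT k e i l⌋ := congrFun hji l
        have h3 := (close_of_floor h2).trans hJ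
        rw [dT, dT, ← mul_sub, abs_mul, abs_of_pos hm0] at h3
        have h4 : c₇ * δ = hm d * (c₇ / hm d * δ) := by field_simp
        rw [h4] at h3
        exact le_of_mul_le_mul_left h3 hm0
      have h5 := slope_vec_le ((hCell.mx j).ne (hCell.unit j)) ((hCell.mx i).ne (hCell.unit i))
        (by positivity) hs
      have h6 := sep_of_sign (k := k) (hCell.unit j) (hCell.unit i) (by
        rcases hCell.sg with h | h
        · exact Or.inl ⟨h j, h i⟩
        · exact Or.inr ⟨h j, h i⟩)
      refine h6.trans ?_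
      have h7 : C * δ = 2 * (((d : ℝ) + 1) * (c₇ / hm d * δ)) := by rw [hC]; ring
      rw [h7]
      linarith)
    refine h1.trans (le_of_eq ?_)
    rw [hN0]
    congr 2
    field_simp
  have hn0 : (0 : ℝ) < Fintype.card ι := by exact_mod_cast Fintype.card_pos
  have h1 := (hUNI ι (Fin d → ℤ)).2 (Fl (dT k e) J)
  have h6 : (Fintype.card ι : ℝ) * Real.log (Fintype.card ι) ≤
      (Fintype.card ι : ℝ) * (H (unif ι) (Fl (dT k e) J) + Real.log N0) := by
    rw [← h1, mul_add]
    refine add_le_add le_rfl ?_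
    refine (Finset.sum_le_card_nsmul _ _ (Real.log N0) (fun i _ => ?_)).trans (le_of_eq ?_)
    · refine Real.log_le_log ?_ (hfib i _ ?_)
      · rw [Nat.cast_pos]
        refine Finset.card_pos.2 ⟨i, ?_⟩
        simp only [Finset.mem_filter, Finset.mem_univ, true_and]
      · intro j hj
        simp only [Finset.mem_filter, Finset.mem_univ, true_and] at hj
        exact hj
    · rw [nsmul_eq_mul, Finset.card_univ]
  exact le_of_mul_le_mul_left h6 hn0

end Pool.STK
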